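import Pool.Agent.Q225.EqPetersen

/-!
# Equality-testing cost and Hamiltonicity

`Q225.EqG.cc G n` is the least number of bits of a correct protocol with a fixed schedule
(`Pool/Agent/Q225/EqDefs.lean`), `Q225.EqG.acc G n` is the least worst-case number of bits of a
correct adaptive protocol (`Pool/Agent/Q225/EqDynDefs.lean`).  The Petersen graph `P` is connected,
has `k = 10` vertices, is not Hamiltonian, and both `cc P n / n` and `acc P n / n` tend to `k / 2`.
-/

set_option autoImplicit false

namespace Pool.Agent.Results.MP_76d60e_lc.PetersenNotHamiltonian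

open Q225.EqG Filter

/-- **Main theorem**: the Petersen graph is connected and not Hamiltonian, and `f(P) = k / 2`. -/
theorem result :
    petersen.Connected ∧ ¬ petersen.IsHamiltonian ∧
      Tendsto (fun n : ℕ => (cc petersen n : ℝ) / n) atTop
        (nhds ((Fintype.card (Fin 10) : ℝ) / 2)) ∧
      Tendsto (fun n : ℕ => (acc petersen n : ℝ) / n) atTop
        (nhds ((Fintype.card (Fin 10) : ℝ) / 2)) := by
  have h : ((Fintype.card (Fin 10) : ℝ) / 2) = 5 := by rw [Fintype.card_fin]; norm_num
  refine ⟨petersen_connected, petersen_not_hamiltonian, ?_, ?_⟩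
  · rw [h, ← petersen_fc]; exact tendsto_fc petersen_connected
  · rw [h, ← petersen_fc]; exact tendsto_acc petersen_connected

end Pool.Agent.Results.MP_76d60e_lc.PetersenNotHamiltonian
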